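import Pool.Agent.W606.PS.Cyl

/-!
The second part of the sphere axioms for the triangulated cylinder.
-/

set_option autoImplicit false

open Set Relation

namespace Pool.Agent.W947.PS

open Pool.Agent.W606.PS

theorem link {S E : Type} (A : Set S) (f : S × Fin 3 → E) (a : E) (p1 p2 : S × Fin 3)
    (hf : ∀ p, f p = a ↔ p = p1 ∨ p = p2)
    (he : Even {p : S × Fin 3 | p.1 ∈ A ∧ f p = a}.ncard) : p1.1 ∈ A ↔ p2.1 ∈ A := by
  have key : ∀ q1 q2 : S × Fin 3, (∀ p, f p = a ↔ p = q1 ∨ p = q2) → q1.1 ∈ A → q2.1 ∈ A := by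
    intro q1 q2 hq h1
    by_contra h2
    have h3 : {p : S × Fin 3 | p.1 ∈ A ∧ f p = a} = {q1} := by
      ext p
      rw [mem_ofPred_eq, mem_singleton_iff, hq]
      constructor
      · rintro ⟨h4, rfl | rfl⟩
        · rfl
        · exact absurd h4 h2
      · rintro rfl
        exact ⟨h1, Or.inl rfl⟩
    rw [h3, ncard_singleton] at he
    exact absurd he (by decide)
  exact ⟨key p1 p2 hf, key p2 p1 (fun p => (hf p).trans or_comm)⟩

theorem sla_hor (n m : ℕ) (i i' : ZMod n) (j : Fin (m + 1)) (j' : Fin m) :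
    cSla n m i j ≠ cHor n m i' j' := by
  unfold cSla cHor
  split_ifs <;> simp

theorem fin3 (s : Fin 3) : s = 0 ∨ s = 1 ∨ s = 2 := by
  fin_cases s <;> simp

theorem hor_iff (n m : ℕ) (i : ZMod n) (j : Fin m) (p : CT n m × Fin 3) :
    (Cyl n m).te p.1 p.2 = cHor n m i j ↔ p = (Sum.inl (i, j), 2) ∨ p = (Sum.inr (i, j), 0) := by
  obtain ⟨t, s⟩ := p
  have hs := fin3 s
  rcases t with ⟨a, b⟩ | ⟨a, b⟩
  · rcases hs with rfl | rfl | rfl
    · simp [Cyl, cTE, cVer, cHor]
    · simp only [Cyl, cTE]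
      constructor
      · intro h
        exact absurd h (by simpa using sla_hor n m a i b.succ j)
      · intro h
        simp at h
    · simp [Cyl, cTE, cHor]
  · rcases hs with rfl | rfl | rfl
    · simp [Cyl, cTE, cHor]
    · simp only [Cyl, cTE]
      constructor
      · intro h
        exact absurd h (by simpa using sla_hor n m a i b.castSucc j)
      · intro h
        simp at h
    · simp [Cyl, cTE, cVer, cHor]

theorem dia_iff (n m : ℕ) (i : ZMod n) (j : ℕ) (hj : j < m - 1) (p : CT n m × Fin 3) :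
    (Cyl n m).te p.1 p.2 = Sum.inr (Sum.inr (i, ⟨j, hj⟩)) ↔
      p = (Sum.inl (i, ⟨j, by omega⟩), 1) ∨ p = (Sum.inr (i, ⟨j + 1, by omega⟩), 1) := by
  obtain ⟨t, s⟩ := p
  have hs := fin3 s
  rcases t with ⟨a, b⟩ | ⟨a, b⟩
  · rcases hs with rfl | rfl | rfl
    · simp [Cyl, cTE, cVer]
    · simp only [Cyl, cTE, cSla, Fin.val_succ, Matrix.cons_val_one, Matrix.cons_val_zero]
      by_cases h1 : (b : ℕ) + 1 - 1 < m - 1
      · rw [dif_neg (by omega), dif_pos h1]
        simp only [Nat.add_sub_cancel, Sum.inr.injEq, Prod.mk.injEq, Fin.mk.injEq, Sum.inl.injEq,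
          and_true, reduceCtorEq, false_and, or_false]
        constructor
        · rintro ⟨rfl, rfl⟩
          exact ⟨rfl, rfl⟩
        · rintro ⟨rfl, rfl⟩
          exact ⟨rfl, rfl⟩
      · rw [dif_neg (by omega), dif_neg h1]
        simp only [Sum.inr.injEq, reduceCtorEq, Prod.mk.injEq, Sum.inl.injEq, and_true, false_and,
          or_false, false_iff, not_and]
        rintro rfl rfl
        simp only at h1
        omega
    · simp [Cyl, cTE, cHor]
  · rcases hs with rfl | rfl | rfl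
    · simp [Cyl, cTE, cHor]
    · simp only [Cyl, cTE, cSla, Fin.val_castSucc, Matrix.cons_val_one, Matrix.cons_val_zero]
      by_cases h0 : (b : ℕ) = 0
      · rw [dif_pos h0]
        simp only [Sum.inr.injEq, reduceCtorEq, Prod.mk.injEq, and_true, false_and,
          false_or, false_iff, not_and]
        rintro rfl rfl
        simp at h0
      · by_cases h1 : (b : ℕ) - 1 < m - 1
        · rw [dif_neg h0, dif_pos h1]
          simp only [Sum.inr.injEq, Prod.mk.injEq, Fin.mk.injEq,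
            and_true, reduceCtorEq, false_and, false_or]
          constructor
          · rintro ⟨rfl, rfl⟩
            refine ⟨rfl, Fin.ext ?_⟩
            simp only
            omega
          · rintro ⟨rfl, rfl⟩
            exact ⟨rfl, by simp⟩
        · have := b.2
          omega
    · simp [Cyl, cTE, cVer]

theorem ver_iff (n m : ℕ) (i : ZMod n) (hm : 1 ≤ m) (p : CT n m × Fin 3) :
    (Cyl n m).te p.1 p.2 = Sum.inr (Sum.inl (i, ⟨0, by omega⟩)) ↔
      p = (Sum.inr (i, ⟨0, by omega⟩), 2) ∨ p = (Sum.inr (i - 1, ⟨0, by omega⟩), 1) := by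
  obtain ⟨t, s⟩ := p
  have hs := fin3 s
  rcases t with ⟨a, b⟩ | ⟨a, b⟩
  · rcases hs with rfl | rfl | rfl
    · simp [Cyl, cTE, cVer, Fin.ext_iff]
    · simp only [Cyl, cTE, cSla, Fin.val_succ, Matrix.cons_val_one, Matrix.cons_val_zero]
      by_cases h1 : (b : ℕ) + 1 - 1 < m - 1
      · rw [dif_neg (by omega), dif_pos h1]
        simp
      · rw [dif_neg (by omega), dif_neg h1]
        simp [Fin.ext_iff]
    · simp [Cyl, cTE, cHor]
  · rcases hs with rfl | rfl | rfl
    · simp [Cyl, cTE, cHor]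
    · simp only [Cyl, cTE, cSla, Fin.val_castSucc, Matrix.cons_val_one, Matrix.cons_val_zero]
      by_cases h0 : (b : ℕ) = 0
      · rw [dif_pos h0]
        simp [Fin.ext_iff, eq_sub_iff_add_eq, h0]
      · by_cases h1 : (b : ℕ) - 1 < m - 1
        · rw [dif_neg h0, dif_pos h1]
          simp [Fin.ext_iff, h0]
        · have := b.2
          omega
    · simp [Cyl, cTE, cVer, Fin.ext_iff]

theorem main : S_CYL2 := by
  intro n m _ hm
  refine ⟨?_, ?_⟩
  · intro A hA
    have l1 : ∀ (i : ZMod n) (j : Fin m), ((Sum.inl (i, j) : CT n m) ∈ A ↔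
        (Sum.inr (i, j) : CT n m) ∈ A) := fun i j =>
      link A (fun p => (Cyl n m).te p.1 p.2) _ _ _ (hor_iff n m i j) (hA _)
    have l2 : ∀ (i : ZMod n) (j : ℕ) (hj : j < m - 1),
        ((Sum.inl (i, ⟨j, by omega⟩) : CT n m) ∈ A ↔
        (Sum.inr (i, ⟨j + 1, by omega⟩) : CT n m) ∈ A) := fun i j hj =>
      link A (fun p => (Cyl n m).te p.1 p.2) _ _ _ (dia_iff n m i j hj) (hA _)
    have l3 : ∀ (i : ZMod n), ((Sum.inr (i, ⟨0, by omega⟩) : CT n m) ∈ A ↔
        (Sum.inr (i - 1, ⟨0, by omega⟩) : CT n m) ∈ A) := fun i =>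
      link A (fun p => (Cyl n m).te p.1 p.2) _ _ _ (ver_iff n m i hm) (hA _)
    have l4 : ∀ (k : ℕ), ((Sum.inr ((k : ZMod n), ⟨0, by omega⟩) : CT n m) ∈ A ↔
        (Sum.inr ((0 : ZMod n), ⟨0, by omega⟩) : CT n m) ∈ A) := by
      intro k
      induction k with
      | zero => simp
      | succ k ih =>
        rw [← ih]
        have h := l3 ((k + 1 : ℕ) : ZMod n)
        rw [h]
        push_cast
        rw [add_sub_cancel_right]
    have l5 : ∀ (i : ZMod n), ((Sum.inr (i, ⟨0, by omega⟩) : CT n m) ∈ A ↔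
        (Sum.inr ((0 : ZMod n), ⟨0, by omega⟩) : CT n m) ∈ A) := by
      intro i
      have h := l4 i.val
      rwa [ZMod.natCast_zmod_val] at h
    have l6 : ∀ (i : ZMod n) (j : ℕ) (hj : j < m), ((Sum.inr (i, ⟨j, hj⟩) : CT n m) ∈ A ↔
        (Sum.inr ((0 : ZMod n), ⟨0, by omega⟩) : CT n m) ∈ A) := by
      intro i j
      induction j with
      | zero => intro hj; exact l5 i
      | succ j ih =>
        intro hj
        rw [← ih (by omega), ← l1 i ⟨j, by omega⟩]
        exact (l2 i j (by omega)).symm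
    by_cases h0 : (Sum.inr ((0 : ZMod n), ⟨0, by omega⟩) : CT n m) ∈ A
    · right
      rw [eq_univ_iff_forall]
      rintro (⟨i, j⟩ | ⟨i, j⟩)
      · rw [l1]
        exact (l6 i j j.2).2 h0
      · exact (l6 i j j.2).2 h0
    · left
      rw [eq_empty_iff_forall_notMem]
      rintro (⟨i, j⟩ | ⟨i, j⟩)
      · rw [l1]
        exact fun h => h0 ((l6 i j j.2).1 h)
      · exact fun h => h0 ((l6 i j j.2).1 h)
  · simp only [Fintype.card_sum, Fintype.card_prod, ZMod.card, Fintype.card_fin, Fintype.card_bool]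
    obtain ⟨k, rfl⟩ : ∃ k, m = k + 1 := ⟨m - 1, by omega⟩
    simp only [Nat.add_sub_cancel]
    ring

end Pool.Agent.W947.PS
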